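import Mathlib
import Pool.Agent.H34.Upho.Ex

/-!
# MP_4cc90a_co: one pre-upho coloring for which left-cancellativity, the existence of greatest
common left divisors, and upper homogeneity of the divisibility poset all fail
-/

set_option autoImplicit false

namespace Pool.Agent.Results.MP_4cc90a_co.EverythingFails

section Defs

variable {L : Type} [Lattice L] [BoundedOrder L]

/-- The atoms of `L`. -/
abbrev Atm (L : Type) [Lattice L] [BoundedOrder L] : Type := {s : L // IsAtom s}

/-- `ρ` is a rank function of `L` (so `L` is graded): `ρ ⊥ = 0` and `ρ` goes up by one along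
every cover. -/
def IsRank (ρ : L → ℕ) : Prop := ρ ⊥ = 0 ∧ ∀ x y : L, x ⋖ y → ρ y = ρ x + 1

/-- `c` is a pre-upho coloring of `L` (with rank function `ρ`). A coloring of the cover
relations is given as `c : L → L → Atm L`, of which only the values `c x y` with `x ⋖ y` are
ever used. The second condition: for `x ≠ ⊥, ⊤`, with `J` the join of the upper covers of `x`,
there is an embedding `φ : [x, J] → L` (an isomorphism of posets onto its image) which is
rank-preserving and color-preserving. -/
structure PreUpho (ρ : L → ℕ) (c : L → L → Atm L) : Prop where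
  bot : ∀ s : Atm L, c ⊥ s = s
  emb : ∀ x J : L, x ≠ ⊥ → x ≠ ⊤ → IsLUB {y | x ⋖ y} J → ∃ φ : Set.Icc x J → L,
    (∀ u v, φ u ≤ φ v ↔ u ≤ v) ∧ (∀ u, ρ (φ u) + ρ x = ρ u) ∧
    ∀ u v : Set.Icc x J, (u : L) ⋖ (v : L) → φ u ⋖ φ v ∧ c (φ u) (φ v) = c u v

/-- `ChainWord c x z w`: `w` is the word of colors along some saturated chain from `x`
to `z`. -/
inductive ChainWord (c : L → L → Atm L) : L → L → List (Atm L) → Prop
  | nil (x : L) : ChainWord c x x []
  | cons {x y z : L} {w : List (Atm L)} (h : x ⋖ y) (hw : ChainWord c y z w) :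
      ChainWord c x z (c x y :: w)

/-- The defining relations of the monoid: for every two atoms `x`, `y` and every two saturated
chains from `⊥` to `x ⊔ y`, the first through `x` and the second through `y`, the two words of
colors are equal. -/
def Rel (c : L → L → Atm L) (a b : FreeMonoid (Atm L)) : Prop :=
  ∃ (x y : Atm L) (u v : List (Atm L)),
    ChainWord c (x : L) ((x : L) ⊔ (y : L)) u ∧ ChainWord c (y : L) ((x : L) ⊔ (y : L)) v ∧
    a = FreeMonoid.ofList (c ⊥ x :: u) ∧ b = FreeMonoid.ofList (c ⊥ y :: v)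

/-- The monoid `M` of the coloring. -/
abbrev Mon (c : L → L → Atm L) : Type := PresentedMonoid (Rel c)

end Defs

/-- `u ≤_L v`: `u` is a left divisor of `v`. -/
def LeftDvd {M : Type} [Monoid M] (u v : M) : Prop := ∃ w, v = u * w

/-- `d` is a greatest common left divisor of `u` and `v`. -/
def IsGCLD {M : Type} [Monoid M] (d u v : M) : Prop :=
  LeftDvd d u ∧ LeftDvd d v ∧ ∀ d', LeftDvd d' u → LeftDvd d' v → LeftDvd d' d

/-- `(M, ≤_L)` is upho: every principal filter `V_a = {w | a ≤_L w}` is isomorphic to it. -/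
def IsUpho (M : Type) [Monoid M] : Prop :=
  ∀ a : M, ∃ f : {w : M // LeftDvd a w} ≃ M, ∀ v w, LeftDvd v.1 w.1 ↔ LeftDvd (f v) (f w)

theorem chainWord_iff {L : Type} [Lattice L] [BoundedOrder L] (c : L → L → Atm L) (x z : L)
    (w : List (Atm L)) : ChainWord c x z w ↔ Pool.Agent.H34.Upho.ChainWord c x z w := by
  constructor
  · intro h
    induction h with
    | nil x => exact .nil x
    | cons h _ ih => exact .cons h ih
  · intro h
    induction h with
    | nil x => exact .nil x
    | cons h _ ih => exact .cons h ih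

theorem rel_eq {L : Type} [Lattice L] [BoundedOrder L] (c : L → L → Atm L) :
    Rel c = Pool.Agent.H34.Upho.Rel c := by
  funext a b
  apply propext
  unfold Rel Pool.Agent.H34.Upho.Rel
  simp only [chainWord_iff]

/-- **Theorem.** There are a finite graded lattice `L` whose top is the join of its atoms and a
pre-upho coloring of `L` such that, for the monoid `M` of the coloring, all of the following fail:
`M` is left-cancellative; every two elements of `M` have a greatest common left divisor;
the poset `(M, ≤_L)` is upho. -/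
theorem result : ∃ (L : Type) (_ : Fintype L) (_ : Lattice L) (_ : BoundedOrder L) (ρ : L → ℕ)
    (c : L → L → Atm L), IsRank ρ ∧ IsLUB {s : L | IsAtom s} ⊤ ∧ PreUpho ρ c ∧
      (∃ a u v : Mon c, a * u = a * v ∧ u ≠ v) ∧
      (∃ u v : Mon c, ¬ ∃ d : Mon c, IsGCLD d u v) ∧
      ¬ IsUpho (Mon c) := by
  refine ⟨Pool.Agent.H34.Upho.E, inferInstance, inferInstance, inferInstance,
    Pool.Agent.H34.Upho.rk, Pool.Agent.H34.Upho.col, Pool.Agent.H34.Upho.isRank_rk,
    Pool.Agent.H34.Upho.isLUB_top,
    ⟨Pool.Agent.H34.Upho.preUpho.bot, Pool.Agent.H34.Upho.preUpho.emb⟩, ?_⟩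
  unfold Mon
  rw [rel_eq]
  refine ⟨⟨_, _, _, Pool.Agent.H34.Upho.no_cancel_eq, Pool.Agent.H34.Upho.no_cancel_ne⟩,
    ⟨Pool.Agent.H34.Upho.p, Pool.Agent.H34.Upho.q, fun ⟨d, hd⟩ =>
      Pool.Agent.H34.Upho.no_gcd d hd⟩, fun h => ?_⟩
  obtain ⟨f, hf⟩ := h (Pool.Agent.H34.Upho.g Pool.Agent.H34.Upho.bA)
  exact Pool.Agent.H34.Upho.not_iso f hf

end Pool.Agent.Results.MP_4cc90a_co.EverythingFails
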